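import Pool.Agent.R3B.StmtsU

/-!
# Squad R3B, row KRN: the integral of the bound of the linearized damping
-/

set_option autoImplicit false

namespace Pool.Agent.R3B.H44

open Set MeasureTheory
open Pool.Agent.Helper72_Shell (fold fold_continuous fold_nonneg fold_neg fold_per fold_eq)

theorem fold_refl {ℓ : ℝ} (hℓ : 0 < ℓ) (x : ℝ) : fold ℓ (2 * ℓ - x) = fold ℓ x := by
  rw [← fold_neg ℓ x, ← fold_per hℓ (-x)]
  congr 1
  ring

/-- The two cases of the distance to the lattice. -/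
theorem fold_two {ℓ : ℝ} (hℓ : 0 < ℓ) {x : ℝ} (h0 : 0 ≤ x) (h1 : x ≤ 2 * ℓ) :
    fold ℓ x = x ∨ fold ℓ x = 2 * ℓ - x := by
  rcases le_total x ℓ with h | h
  · exact Or.inl (fold_eq hℓ h0 h)
  · right
    rw [← fold_refl hℓ]
    exact fold_eq hℓ (by linarith) (by linarith)

theorem int_rpow {L β : ℝ} (hβ1 : β < 1) :
    ∫ x in (0 : ℝ)..L, x ^ (-β) = L ^ (1 - β) / (1 - β) := by
  rw [integral_rpow (Or.inl (by linarith))]
  have h1 : (-β + 1) = 1 - β := by ring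
  rw [h1, Real.zero_rpow (by linarith), sub_zero]

theorem ii_rpow {L β : ℝ} (hβ1 : β < 1) :
    IntervalIntegrable (fun x : ℝ => x ^ (-β)) volume 0 L :=
  intervalIntegral.intervalIntegrable_rpow' (by linarith)

theorem ii_rpow' {L β : ℝ} (hβ1 : β < 1) :
    IntervalIntegrable (fun x : ℝ => (L - x) ^ (-β)) volume 0 L := by
  have h := (ii_rpow (L := L) hβ1).comp_sub_left L
  simp only [sub_zero, sub_self] at h
  exact h.symm

theorem int_rpow' {L β : ℝ} (hβ1 : β < 1) :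
    ∫ x in (0 : ℝ)..L, (L - x) ^ (-β) = L ^ (1 - β) / (1 - β) := by
  rw [intervalIntegral.integral_comp_sub_left (fun x => x ^ (-β)) L, sub_zero, sub_self,
    int_rpow hβ1]

/-- The pointwise bound. -/
theorem pt_bound {α ℓ k1 Λ β κ M : ℝ} {b : ℝ → ℝ} (hα : 0 < α) (hℓ : 0 < ℓ)
    (hΛ : 0 ≤ Λ) (hβ : 0 < β) (hβα : β ≤ α) (hk1 : 0 ≤ k1)
    (hκ : 0 < κ) (hb : ∀ x, 0 ≤ b x) (hM : 0 ≤ M)
    (hk : ∀ x, κ * b x * fold ℓ x ^ α ≤ k1) (x : ℝ) :
    WW κ α ℓ b Λ M x ≤ k1 * (2 * M) ^ β * Λ ^ (α - β) * fold ℓ x ^ (-β) := by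
  unfold WW
  have hf := fold_nonneg hℓ x
  have h2M : 0 ≤ 2 * M := by linarith
  have hkb : 0 ≤ κ * b x := mul_nonneg hκ.le (hb x)
  rcases hf.eq_or_lt with h0 | h0
  · rw [← h0, mul_zero, min_eq_right h2M, Real.zero_rpow hα.ne', mul_zero]
    have h1 : 0 ≤ (2 * M) ^ β := Real.rpow_nonneg h2M β
    have h2 : 0 ≤ Λ ^ (α - β) := Real.rpow_nonneg hΛ _
    have h3 : (0 : ℝ) ≤ (0 : ℝ) ^ (-β) := Real.rpow_nonneg le_rfl _
    positivity
  · have hΛf : 0 ≤ Λ * fold ℓ x := mul_nonneg hΛ hf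
    have hmin : 0 ≤ min (2 * M) (Λ * fold ℓ x) := le_min h2M hΛf
    have h1 : (min (2 * M) (Λ * fold ℓ x)) ^ α ≤ (2 * M) ^ β * (Λ * fold ℓ x) ^ (α - β) := by
      have e : α = β + (α - β) := by ring
      calc (min (2 * M) (Λ * fold ℓ x)) ^ α
          = (min (2 * M) (Λ * fold ℓ x)) ^ (β + (α - β)) := by rw [← e]
        _ = (min (2 * M) (Λ * fold ℓ x)) ^ β * (min (2 * M) (Λ * fold ℓ x)) ^ (α - β) := by
            rw [Real.rpow_add_of_nonneg hmin hβ.le (by linarith)]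
        _ ≤ (2 * M) ^ β * (Λ * fold ℓ x) ^ (α - β) :=
            mul_le_mul (Real.rpow_le_rpow hmin (min_le_left _ _) hβ.le)
              (Real.rpow_le_rpow hmin (min_le_right _ _) (by linarith))
              (Real.rpow_nonneg hmin _) (Real.rpow_nonneg h2M _)
    have h2 : κ * b x ≤ k1 * fold ℓ x ^ (-α) := by
      rw [Real.rpow_neg hf, ← div_eq_mul_inv, le_div_iff₀ (Real.rpow_pos_of_pos h0 α)]
      exact hk x
    have h3 : 0 ≤ (2 * M) ^ β * (Λ * fold ℓ x) ^ (α - β) :=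
      mul_nonneg (Real.rpow_nonneg h2M _) (Real.rpow_nonneg hΛf _)
    calc κ * b x * (min (2 * M) (Λ * fold ℓ x)) ^ α
        ≤ κ * b x * ((2 * M) ^ β * (Λ * fold ℓ x) ^ (α - β)) :=
          mul_le_mul_of_nonneg_left h1 hkb
      _ ≤ (k1 * fold ℓ x ^ (-α)) * ((2 * M) ^ β * (Λ * fold ℓ x) ^ (α - β)) :=
          mul_le_mul_of_nonneg_right h2 h3
      _ = k1 * (2 * M) ^ β * Λ ^ (α - β) * (fold ℓ x ^ (-α) * fold ℓ x ^ (α - β)) := by
          rw [Real.mul_rpow hΛ hf]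
          ring
      _ = k1 * (2 * M) ^ β * Λ ^ (α - β) * fold ℓ x ^ (-β) := by
          rw [← Real.rpow_add h0]
          congr 2
          ring

/-- Row KRN. -/
theorem krn : KrnStmt := by
  intro α ℓ k1 Λ β hα hℓ hk1 hΛ hβ hβ1 hβα
  have h2ℓ : 0 < 2 * ℓ := by linarith
  have h1β : 0 < 1 - β := by linarith
  have hA : 0 ≤ k1 * 2 ^ β * Λ ^ (α - β) := by
    have h1 : (0 : ℝ) ≤ 2 ^ β := Real.rpow_nonneg (by norm_num) _
    have h2 : 0 ≤ Λ ^ (α - β) := Real.rpow_nonneg hΛ _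
    positivity
  have hB : 0 ≤ (2 * ℓ) ^ (1 - β) / (1 - β) := div_nonneg (Real.rpow_nonneg h2ℓ.le _) h1β.le
  refine ⟨k1 * 2 ^ β * Λ ^ (α - β) * (2 * ((2 * ℓ) ^ (1 - β) / (1 - β))) + 1, by positivity, ?_⟩
  intro κ b M hκ hbc hb hk hM
  have hMβ : 0 ≤ M ^ β := Real.rpow_nonneg hM _
  have hcont : Continuous (WW κ α ℓ b Λ M) := by
    unfold WW
    refine (continuous_const.mul hbc).mul ?_
    exact Continuous.rpow_const (continuous_const.min (continuous_const.mul (fold_continuous ℓ)))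
      (fun x => Or.inr hα.le)
  have hint : IntervalIntegrable (fun x : ℝ => k1 * (2 * M) ^ β * Λ ^ (α - β) *
      (x ^ (-β) + (2 * ℓ - x) ^ (-β))) volume 0 (2 * ℓ) :=
    ((ii_rpow hβ1).add (ii_rpow' hβ1)).const_mul _
  have hle : ∫ x in (0 : ℝ)..(2 * ℓ), WW κ α ℓ b Λ M x ≤
      ∫ x in (0 : ℝ)..(2 * ℓ), k1 * (2 * M) ^ β * Λ ^ (α - β) *
        (x ^ (-β) + (2 * ℓ - x) ^ (-β)) := by
    refine intervalIntegral.integral_mono_on h2ℓ.le (hcont.intervalIntegrable _ _) hint ?_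
    intro x hx
    refine (pt_bound hα hℓ hΛ hβ hβα hk1 hκ hb hM hk x).trans ?_
    have h2M : 0 ≤ 2 * M := by linarith
    have h1 : 0 ≤ k1 * (2 * M) ^ β * Λ ^ (α - β) :=
      mul_nonneg (mul_nonneg hk1 (Real.rpow_nonneg h2M _)) (Real.rpow_nonneg hΛ _)
    refine mul_le_mul_of_nonneg_left ?_ h1
    have h2 : 0 ≤ x ^ (-β) := Real.rpow_nonneg hx.1 _
    have h3 : 0 ≤ (2 * ℓ - x) ^ (-β) := Real.rpow_nonneg (by linarith [hx.2]) _
    rcases fold_two hℓ hx.1 hx.2 with h | h <;> rw [h] <;> linarith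
  refine hle.trans ?_
  rw [intervalIntegral.integral_const_mul, intervalIntegral.integral_add (ii_rpow hβ1)
    (ii_rpow' hβ1), int_rpow hβ1, int_rpow' hβ1, Real.mul_rpow (by norm_num) hM]
  have h4 : k1 * (2 ^ β * M ^ β) * Λ ^ (α - β) *
      ((2 * ℓ) ^ (1 - β) / (1 - β) + (2 * ℓ) ^ (1 - β) / (1 - β)) =
      k1 * 2 ^ β * Λ ^ (α - β) * (2 * ((2 * ℓ) ^ (1 - β) / (1 - β))) * M ^ β := by ring
  rw [h4, add_mul, one_mul]
  linarith

end Pool.Agent.R3B.H44
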